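import Mathlib

/-!
# MP_c7af3c_ag, project EDGE: dimension of the forms of degree j in three variables, and the count
`12 e < C(3e+2, 2)`.
-/

set_option autoImplicit false

namespace Pool.Agent.Edge.H76

open MvPolynomial

theorem finite_hom (k : Type*) [Field k] (r j : ℕ) :
    Module.Finite k (homogeneousSubmodule (Fin r) k j) := by
  classical
  rw [homogeneousSubmodule_eq_finsupp_supported]
  have hfin : ({d : Fin r →₀ ℕ | d.degree = j} : Set _).Finite := by
    apply Set.Finite.subset (Finset.finite_toSet (Finset.finsuppAntidiag Finset.univ j))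
    intro d hd
    rw [Finset.mem_coe, Finset.mem_finsuppAntidiag]
    refine ⟨?_, Finset.subset_univ _⟩
    rw [Set.mem_ofPred_eq, Finsupp.degree_eq_sum] at hd
    exact hd
  have := hfin.to_subtype
  exact Module.Finite.equiv (AddMonoidAlgebra.supportedEquivFinsupp
    ({d : Fin r →₀ ℕ | d.degree = j} : Set _)).symm

theorem finrank_hom (k : Type*) [Field k] (r j : ℕ) :
    Module.finrank k (homogeneousSubmodule (Fin r) k j) = (r + j - 1).choose j := by
  classical
  have h := Finset.card_finsuppAntidiag_nat_eq_choose (s := (Finset.univ : Finset (Fin r))) j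
  rw [Finset.card_univ, Fintype.card_fin] at h
  rw [← h, homogeneousSubmodule_eq_finsupp_supported]
  have hset : ({d : Fin r →₀ ℕ | d.degree = j} : Set _) =
      ↑(Finset.finsuppAntidiag (Finset.univ : Finset (Fin r)) j) := by
    ext d
    rw [Finset.mem_coe, Finset.mem_finsuppAntidiag, Set.mem_ofPred_eq, Finsupp.degree_eq_sum]
    exact ⟨fun h => ⟨h, Finset.subset_univ _⟩, fun h => h.1⟩
  rw [LinearEquiv.finrank_eq (AddMonoidAlgebra.supportedEquivFinsupp
    ({d : Fin r →₀ ℕ | d.degree = j} : Set _)), hset]
  rw [Module.finrank_finsupp_self]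
  simp

theorem finrank_hom_three (k : Type*) [Field k] (j : ℕ) :
    Module.finrank k (homogeneousSubmodule (Fin 3) k j) = (j + 2).choose 2 := by
  rw [finrank_hom, show 3 + j - 1 = j + 2 by omega]
  rw [← Nat.choose_symm (by omega : j ≤ j + 2)]
  congr 1
  omega

theorem finrank_cubics (k : Type*) [Field k] :
    Module.finrank k (homogeneousSubmodule (Fin 3) k 3) = 10 := by
  rw [finrank_hom_three]
  rfl

/-- the count of section 5, `e ≥ 2` -/
theorem count_e (e : ℕ) (he : 2 ≤ e) : 12 * e < (3 * e + 2).choose 2 := by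
  rw [Nat.choose_two_right, show 3 * e + 2 - 1 = 3 * e + 1 by omega]
  have h1 : 24 * e + 2 ≤ (3 * e + 2) * (3 * e + 1) := by nlinarith
  omega

end Pool.Agent.Edge.H76
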