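import Mathlib

/-!
# MP_c7af3c_ag, project EDGE, row SYZ: linear algebra of section 5

`k` a subfield of `Ω`, `T`, `R` spaces over `k`, `Φ : T → U` a `k`-linear map into a space over `Ω`
whose kernel over `Ω` is defined over `k` (`RatKer`).
-/

set_option autoImplicit false

namespace Pool.Agent.Edge.H76

variable {k Ω : Type*} [Field k] [Field Ω] [Algebra k Ω]

section ratker

variable {T U : Type*} [AddCommGroup T] [Module k T] [AddCommGroup U] [Module k U] [Module Ω U]
  [IsScalarTower k Ω U]

/-- the kernel of `Φ` over `Ω` is defined over `k` -/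
def RatKer (Φ : T →ₗ[k] U) : Prop :=
  ∀ (ε : Ω →ₗ[k] k) (m : ℕ) (A : Fin m → T) (c : Fin m → Ω),
    ∑ j, c j • Φ (A j) = 0 → Φ (∑ j, ε (c j) • A j) = 0

theorem exists_eps {m : ℕ} (x : Fin m → Ω) (hx : LinearIndependent k x) (b : Fin m) :
    ∃ ε : Ω →ₗ[k] k, ∀ a, ε (x a) = if a = b then 1 else 0 := by
  classical
  have hinj : LinearMap.ker (Fintype.linearCombination k x) = ⊥ := by
    rw [LinearMap.ker_eq_bot']
    intro c hc
    rw [Fintype.linearCombination_apply] at hc
    exact funext fun i => Fintype.linearIndependent_iff.1 hx c hc i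
  obtain ⟨g, hg⟩ := LinearMap.exists_leftInverse_of_injective (Fintype.linearCombination k x) hinj
  refine ⟨LinearMap.proj b ∘ₗ g, fun a => ?_⟩
  have h1 : x a = Fintype.linearCombination k x (Pi.single a 1) := by
    rw [Fintype.linearCombination_apply, Finset.sum_eq_single a]
    · rw [Pi.single_eq_same, one_smul]
    · intro i _ hi
      rw [Pi.single_eq_of_ne hi, zero_smul]
    · intro h; exact absurd (Finset.mem_univ _) h
  have h2 : g (x a) = Pi.single a 1 := by
    rw [h1]
    exact LinearMap.congr_fun hg (Pi.single a 1)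
  rw [LinearMap.comp_apply, h2, LinearMap.proj_apply, Pi.single_apply]
  by_cases h : a = b
  · simp [h]
  · rw [if_neg h, if_neg (Ne.symm h)]

theorem exists_eps_ne {c : Ω} (hc : c ≠ 0) : ∃ ε : Ω →ₗ[k] k, ε c = 1 := by
  have h : LinearIndependent k (fun _ : Fin 1 => c) := by
    rw [Fintype.linearIndependent_iff]
    intro g hg i
    rw [Fin.sum_univ_one] at hg
    rcases smul_eq_zero.1 hg with h | h
    · rwa [Subsingleton.elim i 0]
    · exact absurd h hc
  obtain ⟨ε, hε⟩ := exists_eps (k := k) _ h 0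
  exact ⟨ε, by simpa using hε 0⟩

omit [IsScalarTower k Ω U] in
/-- elements of `T` with independent images over `k` have independent images over `Ω` -/
theorem RatKer.indep {Φ : T →ₗ[k] U} (h : RatKer (Ω := Ω) Φ) {m : ℕ} (A : Fin m → T)
    (hA : LinearIndependent k (fun j => Φ (A j))) : LinearIndependent Ω (fun j => Φ (A j)) := by
  rw [Fintype.linearIndependent_iff]
  intro c hc i
  by_contra hi
  obtain ⟨ε, hε⟩ := exists_eps_ne (k := k) hi
  have h1 := h ε m A c hc
  rw [map_sum] at h1
  simp only [map_smul] at h1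
  have h2 := Fintype.linearIndependent_iff.1 hA _ h1 i
  rw [hε] at h2
  exact one_ne_zero h2

omit [IsScalarTower k Ω U] in
/-- the rank over `k` is at most the dimension over `Ω` -/
theorem RatKer.finrank_range {Φ : T →ₗ[k] U} (h : RatKer (Ω := Ω) Φ) [FiniteDimensional Ω U] :
    Module.Finite k (LinearMap.range Φ) ∧
      Module.finrank k (LinearMap.range Φ) ≤ Module.finrank Ω U := by
  have key : ∀ (m : ℕ) (w : Fin m → LinearMap.range Φ), LinearIndependent k w →
      m ≤ Module.finrank Ω U := by
    intro m w hw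
    choose A hA using fun j => (w j).2
    have h1 : LinearIndependent k (fun j => Φ (A j)) := by
      have h2 := hw.map' (Submodule.subtype _) (Submodule.ker_subtype _)
      have h3 : (fun j => Φ (A j)) = (Submodule.subtype (LinearMap.range Φ)) ∘ w := by
        funext j
        exact hA j
      rw [h3]
      exact h2
    have h4 := h.indep A h1
    have h5 := h4.fintype_card_le_finrank
    simpa using h5
  have hfin : Module.Finite k (LinearMap.range Φ) := by
    by_contra hnot
    have h1 : ¬ Module.rank k (LinearMap.range Φ) < Cardinal.aleph0 := by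
      intro h2
      exact hnot (Module.rank_lt_aleph0_iff.1 h2)
    have h2 : ((Module.finrank Ω U + 1 : ℕ) : Cardinal) ≤ Module.rank k (LinearMap.range Φ) :=
      le_trans (Cardinal.natCast_lt_aleph0).le (not_lt.1 h1)
    obtain ⟨s, hs, hs2⟩ := le_rank_iff_exists_linearIndependent_finset.1 h2
    have h3 : LinearIndependent k (fun j : Fin (Module.finrank Ω U + 1) =>
        ((s.equivFinOfCardEq hs).symm j : LinearMap.range Φ)) :=
      hs2.comp _ (s.equivFinOfCardEq hs).symm.injective
    have h4 := key _ _ h3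
    omega
  refine ⟨hfin, ?_⟩
  exact key _ _ (Module.finBasis k (LinearMap.range Φ)).linearIndependent

omit [IsScalarTower k Ω U] in
/-- the count: if `R` is large there is `B ≠ 0` with all `X_a B` in the kernel of `Φ` -/
theorem RatKer.count {R : Type*} [AddCommGroup R] [Module k R] {Φ : T →ₗ[k] U}
    (h : RatKer (Ω := Ω) Φ) [FiniteDimensional Ω U] {n : ℕ} (X : Fin n → R →ₗ[k] T)
    (hR : n * Module.finrank Ω U < Module.finrank k R) :
    ∃ B : R, B ≠ 0 ∧ ∀ a, Φ (X a B) = 0 := by
  by_contra hcon
  push Not at hcon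
  obtain ⟨hfin, hle⟩ := h.finrank_range
  let f : R →ₗ[k] (Fin n → LinearMap.range Φ) :=
    LinearMap.pi fun a => (LinearMap.rangeRestrict Φ) ∘ₗ X a
  have hf : Function.Injective f := by
    rw [← LinearMap.ker_eq_bot, LinearMap.ker_eq_bot']
    intro B hB
    by_contra hB0
    obtain ⟨a, ha⟩ := hcon B hB0
    apply ha
    have h1 := congrFun hB a
    exact congrArg Subtype.val h1
  have h1 := LinearMap.finrank_le_finrank_of_injective hf
  rw [Module.finrank_pi_fintype, Finset.sum_const, Finset.card_univ, Fintype.card_fin,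
    smul_eq_mul] at h1
  have h2 : n * Module.finrank k (LinearMap.range Φ) ≤ n * Module.finrank Ω U :=
    Nat.mul_le_mul_left _ hle
  omega

end ratker

section syz

variable {T R Q : Type*} [AddCommGroup T] [Module k T] [AddCommGroup R] [Module k R]
  [AddCommGroup Q] [Module k Q] [Module Ω Q] [IsScalarTower k Ω Q]

/-- the symmetric form `ω(u_0, u'_1) + ω(u'_0, u_1)` on `Q^2` -/
def qf (ω : Q →ₗ[Ω] Q →ₗ[Ω] Ω) : (Fin 2 → Q) →ₗ[Ω] (Fin 2 → Q) →ₗ[Ω] Ω :=
  LinearMap.mk₂ Ω (fun u u' => ω (u 0) (u' 1) + ω (u' 0) (u 1))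
    (by intro a b c; simp only [Pi.add_apply, map_add, LinearMap.add_apply]; ring)
    (by intro a b c; simp only [Pi.smul_apply, map_smul, LinearMap.smul_apply, smul_eq_mul]; ring)
    (by intro a b c; simp only [Pi.add_apply, map_add, LinearMap.add_apply]; ring)
    (by intro a b c; simp only [Pi.smul_apply, map_smul, LinearMap.smul_apply, smul_eq_mul]; ring)

theorem qf_apply (ω : Q →ₗ[Ω] Q →ₗ[Ω] Ω) (u u' : Fin 2 → Q) :
    qf ω u u' = ω (u 0) (u' 1) + ω (u' 0) (u 1) := rfl

/-- the form on `(Q^2)^3` -/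
def bf (ω : Q →ₗ[Ω] Q →ₗ[Ω] Ω) :
    (Fin 3 → Fin 2 → Q) →ₗ[Ω] (Fin 3 → Fin 2 → Q) →ₗ[Ω] Ω :=
  LinearMap.mk₂ Ω (fun u u' => ∑ a, qf ω (u a) (u' a))
    (by intro a b c; simp only [Pi.add_apply, map_add, LinearMap.add_apply, Finset.sum_add_distrib])
    (by intro a b c; simp only [Pi.smul_apply, map_smul, LinearMap.smul_apply, Finset.smul_sum])
    (by intro a b c; simp only [Pi.add_apply, map_add, Finset.sum_add_distrib])
    (by intro a b c; simp only [Pi.smul_apply, map_smul, Finset.smul_sum])

theorem bf_apply (ω : Q →ₗ[Ω] Q →ₗ[Ω] Ω) (u u' : Fin 3 → Fin 2 → Q) :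
    bf ω u u' = ∑ a, qf ω (u a) (u' a) := rfl

/-- the map `A ↦ (v_0(A), v_1(A))` -/
def Phi (v : Fin 2 → T →ₗ[k] Q) : T →ₗ[k] (Fin 2 → Q) := LinearMap.pi v

theorem Phi_apply (v : Fin 2 → T →ₗ[k] Q) (A : T) (i : Fin 2) : Phi v A i = v i A := rfl

theorem ratKer_Phi (ω : Q →ₗ[Ω] Q →ₗ[Ω] Ω) (v : Fin 2 → T →ₗ[k] Q)
    (hq : ∀ A A', ∃ c : k, algebraMap k Ω c = qf ω (Phi v A) (Phi v A'))
    (hrad : ∀ A, (∀ A', qf ω (Phi v A) (Phi v A') = 0) → Phi v A = 0) :
    RatKer (Ω := Ω) (Phi v) := by
  intro ε m A c hc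
  apply hrad
  intro A'
  choose g hg using fun j => hq (A j) A'
  have h1 : ∑ j, c j * algebraMap k Ω (g j) = 0 := by
    have h2 : qf ω (∑ j, c j • Phi v (A j)) (Phi v A') = 0 := by rw [hc]; simp
    rw [map_sum, LinearMap.sum_apply] at h2
    rw [← h2]
    refine Finset.sum_congr rfl fun j _ => ?_
    rw [map_smul, LinearMap.smul_apply, smul_eq_mul, hg]
  have h3 : ∑ j, ε (c j) * g j = 0 := by
    have h4 := congrArg ε h1
    rw [map_sum, map_zero] at h4
    rw [← h4]
    refine Finset.sum_congr rfl fun j _ => ?_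
    rw [mul_comm (c j), ← Algebra.smul_def, map_smul, smul_eq_mul, mul_comm]
  have h5 : Phi v (∑ j, ε (c j) • A j) = ∑ j, algebraMap k Ω (ε (c j)) • Phi v (A j) := by
    rw [map_sum]
    refine Finset.sum_congr rfl fun j _ => ?_
    rw [map_smul, algebraMap_smul]
  rw [h5, map_sum, LinearMap.sum_apply]
  have h6 : ∀ j, (qf ω (algebraMap k Ω (ε (c j)) • Phi v (A j))) (Phi v A') =
      algebraMap k Ω (ε (c j) * g j) := by
    intro j
    rw [map_smul, LinearMap.smul_apply, smul_eq_mul, map_mul, hg]
  simp only [h6]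
  rw [← map_sum, h3, map_zero]

/-- **Row SYZ, e = 1.**  `T = S^4`, `R = S^3` (dimension 10), `X_a : R → T` the multiplications by the
three variables, `v_0, v_1 : T → Q` with `sum_a lam_0a v_1(X_a B) = sum_a lam_1a v_0(X_a B)`. -/
theorem syz_core (ω : Q →ₗ[Ω] Q →ₗ[Ω] Ω) (hQ : Module.finrank Ω Q = 2)
    (hnd1 : ∀ p, (∀ q, ω p q = 0) → p = 0) (hnd2 : ∀ p, (∀ q, ω q p = 0) → p = 0)
    (X : Fin 3 → R →ₗ[k] T) (v : Fin 2 → T →ₗ[k] Q)
    (lam : Fin 2 → Fin 3 → Ω) (x : Fin 3 → Ω)
    (hx : LinearIndependent k x) (hlam : lam 0 ≠ 0)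
    (hlx : ∀ i, ∑ a, x a * lam i a = 0)
    (hrel : ∀ B, ∑ a, lam 0 a • v 1 (X a B) = ∑ a, lam 1 a • v 0 (X a B))
    (halt : ∀ p q, ω p q = - ω q p)
    (hq : ∀ A A', ∃ c : k, algebraMap k Ω c = qf ω (Phi v A) (Phi v A'))
    (hrad : ∀ A, (∀ A', qf ω (Phi v A) (Phi v A') = 0) → Phi v A = 0)
    (hR : Module.finrank k R = 10) :
    ∃ B : R, B ≠ 0 ∧ ∀ a, Phi v (X a B) = 0 := by
  classical
  by_contra hcon
  push Not at hcon
  have hrk : RatKer (Ω := Ω) (Phi v) := ratKer_Phi ω v hq hrad
  have : FiniteDimensional Ω Q := Module.finite_of_finrank_pos (by rw [hQ]; norm_num)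
  have : FiniteDimensional k R := Module.finite_of_finrank_pos (by rw [hR]; norm_num)
  obtain ⟨hfin, hle⟩ := hrk.finrank_range
  -- the map R → P^3, P the range of Phi
  let f : R →ₗ[k] (Fin 3 → LinearMap.range (Phi v)) :=
    LinearMap.pi fun a => (LinearMap.rangeRestrict (Phi v)) ∘ₗ X a
  have hf : Function.Injective f := by
    rw [← LinearMap.ker_eq_bot, LinearMap.ker_eq_bot']
    intro B hB
    by_contra hB0
    obtain ⟨a, ha⟩ := hcon B hB0
    apply ha
    have h1 := congrFun hB a
    exact congrArg Subtype.val h1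
  have hP : 4 ≤ Module.finrank k (LinearMap.range (Phi v)) := by
    have h1 := LinearMap.finrank_le_finrank_of_injective hf
    rw [Module.finrank_pi_fintype, Finset.sum_const, Finset.card_univ, Fintype.card_fin,
      smul_eq_mul, hR] at h1
    omega
  -- the images of a basis of R in (Q^2)^3
  let b := Module.finBasis k R
  let F : R →ₗ[k] (Fin 3 → Fin 2 → Q) := LinearMap.pi fun a => (Phi v) ∘ₗ X a
  have hF : ∀ B a, F B a = Phi v (X a B) := fun B a => rfl
  have hind : LinearIndependent Ω (fun j => F (b j)) := by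
    rw [Fintype.linearIndependent_iff]
    intro c hc i
    by_contra hi
    obtain ⟨ε, hε⟩ := exists_eps_ne (k := k) hi
    have h1 : ∀ a, Phi v (X a (∑ j, ε (c j) • b j)) = 0 := by
      intro a
      have h2 := hrk ε _ (fun j => X a (b j)) c (by
        have h3 := congrFun hc a
        rw [Finset.sum_apply] at h3
        exact h3)
      rw [map_sum]
      simp only [map_smul] at h2 ⊢
      exact h2
    have h4 : ∑ j, ε (c j) • b j = 0 := by
      by_contra h5
      obtain ⟨a, ha⟩ := hcon _ h5
      exact ha (h1 a)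
    have h6 := Fintype.linearIndependent_iff.1 b.linearIndependent _ h4 i
    rw [hε] at h6
    exact one_ne_zero h6
  -- the orthogonal space has dimension 2
  let G : (Fin 3 → Fin 2 → Q) →ₗ[Ω] (Fin (Module.finrank k R) → Ω) :=
    LinearMap.pi fun j => (bf ω).flip (F (b j))
  have hG : ∀ u j, G u j = bf ω u (F (b j)) := fun u j => rfl
  have hndb : ∀ u', (∀ u, bf ω u u' = 0) → u' = 0 := by
    intro u' hu'
    funext a
    have h1 : ∀ w : Fin 2 → Q, qf ω w (u' a) = 0 := by
      intro w
      have h2 := hu' (Pi.single a w)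
      rw [bf_apply, Finset.sum_eq_single a] at h2
      · rwa [Pi.single_eq_same] at h2
      · intro i _ hi
        rw [Pi.single_eq_of_ne hi]
        simp
      · intro h; exact absurd (Finset.mem_univ _) h
    funext i
    fin_cases i
    · apply hnd1
      intro p
      have h3 := h1 (fun i => if i = 1 then p else 0)
      rw [qf_apply] at h3
      simpa using h3
    · apply hnd2
      intro p
      have h3 := h1 (fun i => if i = 0 then p else 0)
      rw [qf_apply] at h3
      simpa using h3
  have hGsurj : Function.Surjective G := by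
    rw [← LinearMap.range_eq_top]
    by_contra hne
    obtain ⟨φ, hφ0, hφ⟩ := Submodule.exists_le_ker_of_lt_top _ (lt_top_iff_ne_top.2 hne)
    -- φ = sum c_j proj_j
    have h1 : ∀ g : Fin (Module.finrank k R) → Ω, φ g = ∑ j, g j * φ (Pi.single j 1) := by
      intro g
      have h0 : g = ∑ j, g j • (Pi.single j (1 : Ω) : Fin (Module.finrank k R) → Ω) := by
        funext i
        rw [Finset.sum_apply, Finset.sum_eq_single i]
        · simp
        · intro j _ hj
          rw [Pi.smul_apply, Pi.single_eq_of_ne (Ne.symm hj), smul_zero]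
        · intro h; exact absurd (Finset.mem_univ _) h
      conv_lhs => rw [h0]
      rw [map_sum]
      refine Finset.sum_congr rfl fun j _ => ?_
      rw [map_smul, smul_eq_mul]
    have h2 : ∀ u, bf ω u (∑ j, φ (Pi.single j 1) • F (b j)) = 0 := by
      intro u
      rw [map_sum]
      have h3 := hφ (LinearMap.mem_range_self G u)
      rw [LinearMap.mem_ker, h1] at h3
      rw [← h3]
      refine Finset.sum_congr rfl fun j _ => ?_
      rw [map_smul, smul_eq_mul, hG, mul_comm]
    have h4 := hndb _ h2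
    have h5 := Fintype.linearIndependent_iff.1 hind _ h4
    apply hφ0
    ext g
    simp [h5]
  have hker : Module.finrank Ω (LinearMap.ker G) = 2 := by
    have h1 := LinearMap.finrank_range_add_finrank_ker G
    rw [LinearMap.range_eq_top.2 hGsurj, finrank_top, Module.finrank_fintype_fun_eq_card,
      Fintype.card_fin] at h1
    have h2 : Module.finrank Ω (Fin 3 → Fin 2 → Q) = 12 := by
      rw [Module.finrank_pi_fintype, Finset.sum_const, Finset.card_univ, Fintype.card_fin,
        Module.finrank_pi_fintype, Finset.sum_const, Finset.card_univ, Fintype.card_fin, hQ]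
      rfl
    omega
  -- the explicit space
  let W : Q →ₗ[Ω] (Fin 3 → Fin 2 → Q) :=
    LinearMap.pi fun a => LinearMap.pi fun i => lam i a • LinearMap.id
  have hW : ∀ p a i, W p a i = lam i a • p := fun p a i => rfl
  have hWinj : Function.Injective W := by
    rw [← LinearMap.ker_eq_bot, LinearMap.ker_eq_bot']
    intro p hp
    obtain ⟨a, ha⟩ := Function.ne_iff.1 hlam
    have h1 := congrFun (congrFun hp a) 0
    rw [hW] at h1
    exact (smul_eq_zero.1 h1).resolve_left ha
  have hWF : ∀ p B, bf ω (W p) (F B) = 0 := by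
    intro p B
    have h1 : bf ω (W p) (F B) = ω p (∑ a, lam 0 a • v 1 (X a B)) -
        ω p (∑ a, lam 1 a • v 0 (X a B)) := by
      rw [bf_apply, map_sum, map_sum, ← Finset.sum_sub_distrib]
      refine Finset.sum_congr rfl fun a _ => ?_
      rw [qf_apply, hW, hW, hF, Phi_apply, Phi_apply, map_smul, LinearMap.smul_apply, map_smul,
        map_smul, map_smul, halt (v 0 (X a B)) p]
      simp only [smul_eq_mul]
      ring
    rw [h1, hrel, sub_self]
  have hWrange : LinearMap.range W = LinearMap.ker G := by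
    apply Submodule.eq_of_le_of_finrank_le
    · rintro _ ⟨p, rfl⟩
      rw [LinearMap.mem_ker]
      funext j
      rw [hG, hWF]
      rfl
    · rw [hker, LinearMap.finrank_range_of_inj hWinj, hQ]
  -- a rational element
  obtain ⟨ε, hε⟩ := exists_eps_ne (k := k) (one_ne_zero (α := Ω))
  let β : (Fin 3 → LinearMap.range (Phi v)) →ₗ[k] (R →ₗ[k] k) :=
    LinearMap.mk₂ k (fun s B => ε (bf ω (fun a => (s a : Fin 2 → Q)) (F B)))
      (by
        intro s s' B
        have : (fun a => ((s + s') a : Fin 2 → Q)) = (fun a => (s a : Fin 2 → Q)) +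
            (fun a => (s' a : Fin 2 → Q)) := by funext a; simp
        rw [this, map_add, LinearMap.add_apply, map_add])
      (by
        intro c s B
        have : (fun a => ((c • s) a : Fin 2 → Q)) = algebraMap k Ω c •
            (fun a => (s a : Fin 2 → Q)) := by
          funext a
          simp only [Pi.smul_apply, Submodule.coe_smul, algebraMap_smul]
        rw [this, map_smul, LinearMap.smul_apply, smul_eq_mul, ← Algebra.smul_def, map_smul,
          smul_eq_mul])
      (by intro s B B'; rw [map_add, map_add, map_add])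
      (by
        intro c s B
        rw [map_smul]
        have : c • F B = algebraMap k Ω c • F B := by rw [algebraMap_smul]
        rw [this, map_smul, smul_eq_mul, ← Algebra.smul_def, map_smul, smul_eq_mul])
  have hβ : ∀ s B, β s B = ε (bf ω (fun a => (s a : Fin 2 → Q)) (F B)) := fun s B => rfl
  have hβk : ∃ s, s ≠ 0 ∧ β s = 0 := by
    by_contra hno
    push Not at hno
    have hinj : Function.Injective β := by
      rw [← LinearMap.ker_eq_bot, LinearMap.ker_eq_bot']
      intro s hs
      by_contra h0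
      exact hno s h0 hs
    have h1 := LinearMap.finrank_le_finrank_of_injective hinj
    rw [Module.finrank_pi_fintype, Finset.sum_const, Finset.card_univ, Fintype.card_fin,
      smul_eq_mul, Module.finrank_linearMap, hR, Module.finrank_self] at h1
    omega
  obtain ⟨s, hs0, hs⟩ := hβk
  choose t ht using fun a => (s a).2
  have hsval : (fun a => (s a : Fin 2 → Q)) = fun a => Phi v (t a) := by
    funext a; exact (ht a).symm
  have hrat : ∀ B, bf ω (fun a => Phi v (t a)) (F B) = 0 := by
    intro B
    have h1 : ε (bf ω (fun a => Phi v (t a)) (F B)) = 0 := by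
      rw [← hsval, ← hβ, hs]; rfl
    choose g hg using fun a => hq (t a) (X a B)
    have h2 : bf ω (fun a => Phi v (t a)) (F B) = algebraMap k Ω (∑ a, g a) := by
      rw [bf_apply, map_sum]
      refine Finset.sum_congr rfl fun a _ => ?_
      rw [hg, hF]
    rw [h2] at h1 ⊢
    rw [Algebra.algebraMap_eq_smul_one, map_smul, hε, smul_eq_mul, mul_one] at h1
    rw [h1, map_zero]
  have hmem : (fun a => Phi v (t a)) ∈ LinearMap.range W := by
    rw [hWrange, LinearMap.mem_ker]
    funext j
    rw [hG, hrat]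
    rfl
  obtain ⟨p, hp⟩ := hmem
  have hsum : ∑ a, x a • Phi v (t a) = 0 := by
    funext i
    rw [Finset.sum_apply]
    have h1 : ∀ a, (x a • Phi v (t a)) i = (x a * lam i a) • p := by
      intro a
      rw [Pi.smul_apply, ← congrFun (congrFun hp a) i, hW, smul_smul]
    simp only [h1]
    rw [← Finset.sum_smul, hlx, zero_smul]
    rfl
  apply hs0
  funext c
  obtain ⟨ε', hε'⟩ := exists_eps (k := k) x hx c
  have h1 := hrk ε' 3 t x hsum
  have h2 : ∑ j, ε' (x j) • t j = t c := by
    rw [Finset.sum_eq_single c]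
    · rw [hε', if_pos rfl, one_smul]
    · intro j _ hj
      rw [hε', if_neg hj, zero_smul]
    · intro h; exact absurd (Finset.mem_univ _) h
  rw [h2] at h1
  apply Subtype.ext
  rw [← ht c, h1]
  rfl

end syz

end Pool.Agent.Edge.H76
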