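import Pool.Agent.Lib.MP_c7af3c_ag.EDGE.Iface
import Pool.Agent.Lib.MP_c7af3c_ag.EDGE.H76.Syz
import Pool.Agent.Lib.MP_c7af3c_ag.EDGE.H76.Dim

/-!
# MP_c7af3c_ag, project EDGE, row EXB
-/

set_option autoImplicit false

namespace Pool.Agent.Edge.H76

open MvPolynomial

section pol

variable {Ω Q : Type} [Field Ω] [AddCommGroup Q] [Module Ω Q] {e : ℕ}
  (v : Fin 2 → MvPolynomial (Fin 3) Ω →ₗ[Ω] Q) (ω : Q [⋀^(Fin e ⊕ Fin e)]→ₗ[Ω] Ω)

/-- the polar form is linear in the first argument -/
noncomputable def polL (A : Fin e → MvPolynomial (Fin 3) Ω) (s : Fin e) :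
    MvPolynomial (Fin 3) Ω →ₗ[Ω] Ω :=
  (ω.toMultilinearMap.toLinearMap (wv v A) (Sum.inl s)) ∘ₗ v 0 +
    (ω.toMultilinearMap.toLinearMap (wv v A) (Sum.inr s)) ∘ₗ v 1

theorem polL_apply (A : Fin e → MvPolynomial (Fin 3) Ω) (s : Fin e)
    (A0 : MvPolynomial (Fin 3) Ω) : polL v ω A s A0 = pol v ω A0 A s := rfl

theorem wv_update (A1 : Fin e → MvPolynomial (Fin 3) Ω) (s : Fin e)
    (A : MvPolynomial (Fin 3) Ω) : wv v (Function.update A1 s A) =
      Function.update (Function.update (wv v A1) (Sum.inl s) (v 0 A)) (Sum.inr s) (v 1 A) := by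
  funext q
  rcases q with j | j
  · rw [Function.update_of_ne (by exact Sum.inl_ne_inr)]
    by_cases h : j = s
    · subst h
      rw [Function.update_self]
      exact congrArg (v 0) (Function.update_self j A A1)
    · rw [Function.update_of_ne (by exact fun h' => h (Sum.inl_injective h'))]
      exact congrArg (v 0) (Function.update_of_ne h A A1)
  · by_cases h : j = s
    · subst h
      rw [Function.update_self]
      exact congrArg (v 1) (Function.update_self j A A1)
    · rw [Function.update_of_ne (by exact fun h' => h (Sum.inr_injective h')),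
        Function.update_of_ne (by exact Sum.inr_ne_inl)]
      exact congrArg (v 1) (Function.update_of_ne h A A1)

theorem upd_comm {Q : Type} {e : ℕ} (f : Fin e ⊕ Fin e → Q) (s : Fin e) (p q : Q) :
    Function.update (Function.update f (Sum.inl s) p) (Sum.inr s) q =
      Function.update (Function.update f (Sum.inr s) q) (Sum.inl s) p := by
  funext i
  by_cases h1 : i = Sum.inr s
  · subst h1
    rw [Function.update_self, Function.update_of_ne Sum.inr_ne_inl, Function.update_self]
  · rw [Function.update_of_ne h1]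
    by_cases h2 : i = Sum.inl s
    · subst h2
      rw [Function.update_self, Function.update_self]
    · rw [Function.update_of_ne h2, Function.update_of_ne h2, Function.update_of_ne h1]

/-- the form with the two vectors of the slot `s` replaced -/
noncomputable def two (A1 : Fin e → MvPolynomial (Fin 3) Ω) (s : Fin e) (p q : Q) : Ω :=
  ω (Function.update (Function.update (wv v A1) (Sum.inl s) p) (Sum.inr s) q)

theorem two_add_left (A1 : Fin e → MvPolynomial (Fin 3) Ω) (s : Fin e) (p p' q : Q) :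
    two v ω A1 s (p + p') q = two v ω A1 s p q + two v ω A1 s p' q := by
  unfold two
  rw [upd_comm, upd_comm (wv v A1) s p, upd_comm (wv v A1) s p', AlternatingMap.map_update_add]

theorem two_add_right (A1 : Fin e → MvPolynomial (Fin 3) Ω) (s : Fin e) (p q q' : Q) :
    two v ω A1 s p (q + q') = two v ω A1 s p q + two v ω A1 s p q' := by
  unfold two
  rw [AlternatingMap.map_update_add]

theorem pol_two (A1 : Fin e → MvPolynomial (Fin 3) Ω) (s : Fin e)
    (A A0 : MvPolynomial (Fin 3) Ω) : pol v ω A0 (Function.update A1 s A) s =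
      two v ω A1 s (v 0 A0) (v 1 A) + two v ω A1 s (v 0 A) (v 1 A0) := by
  unfold pol two
  rw [wv_update]
  congr 2
  · rw [upd_comm, Function.update_idem, upd_comm]
  · rw [Function.update_idem]

theorem pol_eq (A1 : Fin e → MvPolynomial (Fin 3) Ω) (s : Fin e)
    (A A0 : MvPolynomial (Fin 3) Ω) : pol v ω A0 (Function.update A1 s A) s =
      ω (wv v (Function.update A1 s (A + A0))) - ω (wv v (Function.update A1 s A)) -
        ω (wv v (Function.update A1 s A0)) := by
  have h : ∀ B, ω (wv v (Function.update A1 s B)) = two v ω A1 s (v 0 B) (v 1 B) := by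
    intro B
    rw [wv_update]; rfl
  rw [pol_two, h, h, h, map_add, map_add, two_add_left, two_add_right, two_add_right]
  ring

end pol

theorem I3_add {Ω : Type} [Field Ω] {e : ℕ} {A B : MvPolynomial (Fin 3) Ω} (hA : I3 e A)
    (hB : I3 e B) : I3 e (A + B) := by
  refine ⟨hA.1.add hB.1, fun I => ?_⟩
  obtain ⟨a, ha⟩ := hA.2 I
  obtain ⟨b, hb⟩ := hB.2 I
  exact ⟨a + b, by rw [coeff_add, ha, hb]; push_cast; ring⟩

theorem I3_update {Ω : Type} [Field Ω] {e : ℕ} {A1 : Fin e → MvPolynomial (Fin 3) Ω}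
    (h1 : ∀ j, I3 e (A1 j)) (s : Fin e) {A : MvPolynomial (Fin 3) Ω} (hA : I3 e A) (j : Fin e) :
    I3 e (Function.update A1 s A j) := by
  by_cases h : j = s
  · subst h; rwa [Function.update_self]
  · rw [Function.update_of_ne h]; exact h1 j

section main

variable {Ω Q : Type} [Field Ω] [AddCommGroup Q] [Module Ω Q] (k : Subfield Ω)
  {e : ℕ} {y : Fin 3 → Ω} {v : Fin 2 → MvPolynomial (Fin 3) Ω →ₗ[Ω] Q}
  {ω : Q [⋀^(Fin e ⊕ Fin e)]→ₗ[Ω] Ω}

theorem pol_mem_I3 (hC : Core k e y v ω) {A1 : Fin e → MvPolynomial (Fin 3) Ω}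
    (h1 : ∀ j, I3 e (A1 j)) (s : Fin e) {A A0 : MvPolynomial (Fin 3) Ω} (hA : I3 e A)
    (hA0 : I3 e A0) : pol v ω A0 (Function.update A1 s A) s ∈ k := by
  rw [pol_eq]
  refine k.sub_mem (k.sub_mem ?_ ?_) ?_
  · exact hC.rat _ (I3_update h1 s (I3_add hA hA0))
  · exact hC.rat _ (I3_update h1 s hA)
  · exact hC.rat _ (I3_update h1 s hA0)

theorem I3_monomial {I : Fin 3 →₀ ℕ} (hI : I.degree = 3 * e + 1) :
    I3 e (monomial I (1 : Ω)) := by
  classical
  refine ⟨isHomogeneous_monomial _ hI, fun J => ?_⟩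
  rw [coeff_monomial]
  by_cases h : I = J
  · exact ⟨1, by simp [h]⟩
  · exact ⟨0, by simp [h]⟩

/-- a linear functional with values in `k` on the monomials of degree `r` has values in `k` on the
forms over `k` -/
theorem lin_mem {r : ℕ} (L : MvPolynomial (Fin 3) Ω →ₗ[Ω] Ω)
    (hL : ∀ I : Fin 3 →₀ ℕ, I.degree = r → L (monomial I 1) ∈ k)
    {A : MvPolynomial (Fin 3) Ω} (hA : A.IsHomogeneous r) (hk : ∀ I, coeff I A ∈ k) : L A ∈ k := by
  rw [A.as_sum, map_sum]
  refine k.sum_mem fun I hI => ?_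
  have h1 : monomial I (coeff I A) = coeff I A • monomial I (1 : Ω) := by
    rw [smul_monomial, smul_eq_mul, mul_one]
  rw [h1, map_smul, smul_eq_mul]
  refine k.mul_mem (hk I) (hL I ?_)
  by_contra h
  rw [mem_support_iff] at hI
  exact hI (hA.coeff_eq_zero h)

theorem pol_mem_left (hC : Core k e y v ω) {A1 : Fin e → MvPolynomial (Fin 3) Ω}
    (h1 : ∀ j, I3 e (A1 j)) (s : Fin e) {A A0 : MvPolynomial (Fin 3) Ω} (hA : I3 e A)
    (hA0 : A0.IsHomogeneous (3 * e + 1)) (hk : ∀ I, coeff I A0 ∈ k) :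
    pol v ω A0 (Function.update A1 s A) s ∈ k := by
  rw [← polL_apply]
  refine lin_mem k _ (fun I hI => ?_) hA0 hk
  rw [polL_apply]
  exact pol_mem_I3 k hC h1 s hA (I3_monomial hI)

theorem pol_symm (A1 : Fin e → MvPolynomial (Fin 3) Ω) (s : Fin e)
    (A A0 : MvPolynomial (Fin 3) Ω) : pol v ω A0 (Function.update A1 s A) s =
      pol v ω A (Function.update A1 s A0) s := by
  rw [pol_two, pol_two, add_comm]

theorem pol_mem (hC : Core k e y v ω) {A1 : Fin e → MvPolynomial (Fin 3) Ω}
    (h1 : ∀ j, I3 e (A1 j)) (s : Fin e) {A A0 : MvPolynomial (Fin 3) Ω}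
    (hA : A.IsHomogeneous (3 * e + 1)) (hAk : ∀ I, coeff I A ∈ k)
    (hA0 : A0.IsHomogeneous (3 * e + 1)) (hk : ∀ I, coeff I A0 ∈ k) :
    pol v ω A0 (Function.update A1 s A) s ∈ k := by
  rw [← polL_apply]
  refine lin_mem k _ (fun I hI => ?_) hA0 hk
  rw [polL_apply, pol_symm]
  exact pol_mem_left k hC h1 s (I3_monomial hI) hA hAk

/-- the forms of degree `r` over `k` -/
abbrev TT' (k : Subfield Ω) (r : ℕ) : Submodule k (MvPolynomial (Fin 3) k) :=
  homogeneousSubmodule (Fin 3) k r

/-- extension of scalars -/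
noncomputable def ext (k : Subfield Ω) : MvPolynomial (Fin 3) k →ₐ[k] MvPolynomial (Fin 3) Ω :=
  MvPolynomial.mapAlgHom (Algebra.ofId k Ω)

theorem coeff_ext (A : MvPolynomial (Fin 3) k) (I : Fin 3 →₀ ℕ) :
    coeff I (ext k A) = ((coeff I A : k) : Ω) := by
  show coeff I (MvPolynomial.map _ A) = _
  rw [coeff_map]
  rfl

theorem ext_hom {r : ℕ} {A : MvPolynomial (Fin 3) k} (hA : A.IsHomogeneous r) :
    (ext k A).IsHomogeneous r := by
  show (MvPolynomial.map _ A).IsHomogeneous r
  exact hA.map _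

theorem ext_mem (A : MvPolynomial (Fin 3) k) (I : Fin 3 →₀ ℕ) : coeff I (ext k A) ∈ k := by
  rw [coeff_ext]; exact (coeff I A : k).2

theorem ext_ne {A : MvPolynomial (Fin 3) k} (hA : A ≠ 0) : ext k A ≠ 0 := by
  intro h
  apply hA
  ext I
  have h1 := coeff_ext k A I
  rw [h, coeff_zero] at h1
  rw [coeff_zero]
  exact_mod_cast h1.symm

theorem ext_X_mul (a : Fin 3) (B : MvPolynomial (Fin 3) k) :
    ext k (X a * B) = X a * ext k B := by
  rw [map_mul]
  congr 1
  show MvPolynomial.map _ (X a) = _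
  rw [map_X]

/-- multiplication by a variable -/
noncomputable def mulXT (k : Subfield Ω) (r : ℕ) (a : Fin 3) : TT' k r →ₗ[k] TT' k (r + 1) :=
  (LinearMap.mulLeft k (X a : MvPolynomial (Fin 3) k)).restrict fun B hB => by
    rw [mem_homogeneousSubmodule] at hB ⊢
    rw [LinearMap.mulLeft_apply, add_comm]
    exact (isHomogeneous_X k a).mul hB

theorem mulXT_coe (r : ℕ) (a : Fin 3) (B : TT' k r) :
    ((mulXT k r a B : TT' k (r + 1)) : MvPolynomial (Fin 3) k) =
      X a * (B : MvPolynomial (Fin 3) k) := rfl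

end main

section final

variable {Ω Q : Type} [Field Ω] [AddCommGroup Q] [Module Ω Q] (k : Subfield Ω)
  {e : ℕ} {y : Fin 3 → Ω} {v : Fin 2 → MvPolynomial (Fin 3) Ω →ₗ[Ω] Q}
  {ω : Q [⋀^(Fin e ⊕ Fin e)]→ₗ[Ω] Ω}

/-- the maps `v_i` on the forms over `k` -/
noncomputable def vk (v : Fin 2 → MvPolynomial (Fin 3) Ω →ₗ[Ω] Q) (r : ℕ) (i : Fin 2) :
    TT' k r →ₗ[k] Q where
  toFun A := v i (ext k A)
  map_add' A B := by
    rw [Submodule.coe_add, map_add, map_add]
  map_smul' c A := by
    have h : ext k (c • (A : MvPolynomial (Fin 3) k)) =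
        algebraMap k Ω c • ext k (A : MvPolynomial (Fin 3) k) := by
      rw [map_smul, algebraMap_smul]
    rw [Submodule.coe_smul, h, map_smul, algebraMap_smul, RingHom.id_apply]

theorem vk_apply (r : ℕ) (i : Fin 2) (A : TT' k r) : vk k v r i A = v i (ext k A) := rfl

theorem ratKer_vk (hC : Core k e y v ω) {A1 : Fin e → MvPolynomial (Fin 3) Ω}
    (h1 : ∀ j, I3 e (A1 j))
    (hrad : ∀ A0 : MvPolynomial (Fin 3) Ω, A0.IsHomogeneous (3 * e + 1) →
      (∀ A, I3 e A → ∀ s, pol v ω A0 (Function.update A1 s A) s = 0) →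
      v 0 A0 = 0 ∧ v 1 A0 = 0) :
    RatKer (k := k) (Ω := Ω) (T := TT' k (3 * e + 1)) (U := Fin 2 → Q)
      (LinearMap.pi (vk k v (3 * e + 1))) := by
  intro ε m A c hc
  have hzero : ∀ i, v i (∑ j, c j • ext k (A j)) = 0 := by
    intro i
    have h2 := congrFun hc i
    rw [Finset.sum_apply] at h2
    rw [map_sum]
    have h3 : ∀ j, v i (c j • ext k (A j : MvPolynomial (Fin 3) k)) =
        (c j • (LinearMap.pi (vk k v (3 * e + 1))) (A j)) i := by
      intro j
      rw [map_smul]
      rfl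
    rw [Finset.sum_congr rfl fun j _ => h3 j, h2]
    rfl
  have key := hrad (∑ j, algebraMap k Ω (ε (c j)) • ext k (A j)) (by
      have h3 : ∀ j, (algebraMap k Ω (ε (c j)) • ext k (A j : MvPolynomial (Fin 3) k)) ∈
          homogeneousSubmodule (Fin 3) Ω (3 * e + 1) := by
        intro j
        apply Submodule.smul_mem
        rw [mem_homogeneousSubmodule]
        exact ext_hom k ((mem_homogeneousSubmodule _ _).1 (A j).2)
      exact (mem_homogeneousSubmodule _ _).1 (Submodule.sum_mem _ fun j _ => h3 j)) (by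
      intro A' hA' s
      have hmem : ∀ j, ∃ g : k, (g : Ω) = polL v ω (Function.update A1 s A') s (ext k (A j)) := by
        intro j
        have h4 := pol_mem_left k hC h1 s hA' (ext_hom k ((mem_homogeneousSubmodule _ _).1 (A j).2))
          (ext_mem k _)
        exact ⟨⟨_, h4⟩, rfl⟩
      choose g hg using hmem
      have h5 : ∑ j, c j * (g j : Ω) = 0 := by
        have h6 : polL v ω (Function.update A1 s A') s (∑ j, c j • ext k (A j)) = 0 := by
          rw [polL_apply]
          unfold pol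
          rw [hzero, hzero, AlternatingMap.map_update_zero, AlternatingMap.map_update_zero,
            add_zero]
        rw [map_sum] at h6
        rw [← h6]
        refine Finset.sum_congr rfl fun j _ => ?_
        rw [map_smul, smul_eq_mul, hg]
      have h7 : ∑ j, ε (c j) * g j = 0 := by
        have h8 := congrArg ε h5
        rw [map_sum, map_zero] at h8
        rw [← h8]
        refine Finset.sum_congr rfl fun j _ => ?_
        have h9 : c j * (g j : Ω) = g j • c j := by
          rw [Algebra.smul_def, mul_comm]; rfl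
        rw [h9, map_smul, smul_eq_mul, mul_comm]
      rw [← polL_apply, map_sum]
      have h10 : ∀ j, polL v ω (Function.update A1 s A') s
          (algebraMap k Ω (ε (c j)) • ext k (A j)) = algebraMap k Ω (ε (c j) * g j) := by
        intro j
        rw [map_smul, smul_eq_mul, ← hg, map_mul]
        rfl
      simp only [h10]
      rw [← map_sum, h7, map_zero])
  have hv : ∀ i, vk k v (3 * e + 1) i (∑ j, ε (c j) • A j) =
      v i (∑ j, algebraMap k Ω (ε (c j)) • ext k (A j)) := by
    intro i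
    rw [vk_apply, Submodule.coe_sum, map_sum]
    congr 1
    refine Finset.sum_congr rfl fun j _ => ?_
    rw [Submodule.coe_smul, map_smul, algebraMap_smul]
  funext i
  rw [LinearMap.pi_apply, hv]
  fin_cases i
  · exact key.1
  · exact key.2

/-- the bilinear form of the slot `s` -/
noncomputable def twoL (v : Fin 2 → MvPolynomial (Fin 3) Ω →ₗ[Ω] Q)
    (ω : Q [⋀^(Fin e ⊕ Fin e)]→ₗ[Ω] Ω) (A1 : Fin e → MvPolynomial (Fin 3) Ω) (s : Fin e) :
    Q →ₗ[Ω] Q →ₗ[Ω] Ω :=
  LinearMap.mk₂ Ω (two v ω A1 s) (two_add_left v ω A1 s)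
    (by
      intro c p q
      unfold two
      rw [upd_comm, upd_comm (wv v A1) s p, AlternatingMap.map_update_smul])
    (two_add_right v ω A1 s)
    (by
      intro c p q
      unfold two
      rw [AlternatingMap.map_update_smul])

theorem twoL_apply (A1 : Fin e → MvPolynomial (Fin 3) Ω) (s : Fin e) (p q : Q) :
    twoL v ω A1 s p q = two v ω A1 s p q := rfl

theorem two_self (A1 : Fin e → MvPolynomial (Fin 3) Ω) (s : Fin e) (p : Q) :
    two v ω A1 s p p = 0 := by
  unfold two
  apply AlternatingMap.map_eq_zero_of_eq (i := Sum.inl s) (j := Sum.inr s)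
  · rw [Function.update_of_ne Sum.inl_ne_inr, Function.update_self, Function.update_self]
  · exact Sum.inl_ne_inr

theorem two_neg (A1 : Fin e → MvPolynomial (Fin 3) Ω) (s : Fin e) (p q : Q) :
    two v ω A1 s p q = - two v ω A1 s q p := by
  have h := two_self (v := v) (ω := ω) A1 s (p + q)
  rw [two_add_left, two_add_right, two_add_right, two_self, two_self, zero_add, add_zero] at h
  exact eq_neg_of_add_eq_zero_left h

theorem pol_zero_of {A1 : Fin e → MvPolynomial (Fin 3) Ω}
    {s : Fin e} {A0 : MvPolynomial (Fin 3) Ω}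
    (h : ∀ A : TT' k (3 * e + 1), pol v ω (ext k A) (Function.update A1 s A0) s = 0)
    {A : MvPolynomial (Fin 3) Ω} (hA : A.IsHomogeneous (3 * e + 1)) :
    pol v ω A0 (Function.update A1 s A) s = 0 := by
  rw [pol_symm, ← polL_apply, A.as_sum, map_sum]
  refine Finset.sum_eq_zero fun I hI => ?_
  have hI' : I.degree = 3 * e + 1 := by
    by_contra h'
    rw [mem_support_iff] at hI
    exact hI (hA.coeff_eq_zero h')
  have h1 : monomial I (coeff I A) = coeff I A • monomial I (1 : Ω) := by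
    rw [smul_monomial, smul_eq_mul, mul_one]
  rw [h1, map_smul, polL_apply]
  have h2 := h ⟨monomial I (1 : k), (mem_homogeneousSubmodule _ _).2 (isHomogeneous_monomial _ hI')⟩
  have h3 : ext k (monomial I (1 : k)) = monomial I (1 : Ω) := by
    show MvPolynomial.map _ (monomial I (1 : k)) = _
    rw [map_monomial, map_one]
  rw [show ((⟨monomial I (1 : k), (mem_homogeneousSubmodule _ _).2
    (isHomogeneous_monomial _ hI')⟩ : TT' k (3 * e + 1)) : MvPolynomial (Fin 3) k) =
      monomial I (1 : k) from rfl, h3] at h2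
  rw [h2, smul_zero]

/-- the case of one pair -/
theorem exb_one {v : Fin 2 → MvPolynomial (Fin 3) Ω →ₗ[Ω] Q}
    {ω : Q [⋀^(Fin 1 ⊕ Fin 1)]→ₗ[Ω] Ω} (hC : Core k 1 y v ω)
    {A1 : Fin 1 → MvPolynomial (Fin 3) Ω}
    (h1 : ∀ j, I3 1 (A1 j)) (hω : ω (wv v A1) ≠ 0)
    (hrad : ∀ A0 : MvPolynomial (Fin 3) Ω, A0.IsHomogeneous (3 * 1 + 1) →
      (∀ A, I3 1 A → ∀ s, pol v ω A0 (Function.update A1 s A) s = 0) →
      v 0 A0 = 0 ∧ v 1 A0 = 0) :
    ∃ B : TT' k 3, B ≠ 0 ∧ ∀ a, Phi (vk k v (3 + 1)) (mulXT k 3 a B) = 0 := by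
  have hQ : Module.finrank Ω Q = 2 := by rw [hC.dim]
  have hli : LinearIndependent Ω (wv v A1) := by
    by_contra h
    exact hω (AlternatingMap.map_linearDependent ω _ h)
  have hcard : Fintype.card (Fin 1 ⊕ Fin 1) = Module.finrank Ω Q := by
    rw [hQ]; rfl
  let b := basisOfLinearIndependentOfCardEqFinrank hli hcard
  have hb : ∀ q, b q = wv v A1 q := fun q => by
    rw [show b = basisOfLinearIndependentOfCardEqFinrank hli hcard from rfl,
      coe_basisOfLinearIndependentOfCardEqFinrank]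
  have hexp : ∀ p : Q, p = b.repr p (Sum.inl 0) • v 0 (A1 0) +
      b.repr p (Sum.inr 0) • v 1 (A1 0) := by
    intro p
    conv_lhs => rw [← b.sum_repr p]
    rw [Fintype.sum_sum_type, Fin.sum_univ_one, Fin.sum_univ_one, hb, hb]
    rfl
  have hω' : two v ω A1 0 (v 0 (A1 0)) (v 1 (A1 0)) ≠ 0 := by
    have h2 : Function.update (Function.update (wv v A1) (Sum.inl 0) (v 0 (A1 0))) (Sum.inr 0)
        (v 1 (A1 0)) = wv v A1 := by
      rw [← wv_update, Function.update_eq_self]
    unfold two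
    rwa [h2]
  have hsl : ∀ (c : Ω) (p q : Q), two v ω A1 0 (c • p) q = c * two v ω A1 0 p q := by
    intro c p q
    rw [← twoL_apply, map_smul]; rfl
  have hnd1 : ∀ p, (∀ q, twoL v ω A1 0 p q = 0) → p = 0 := by
    intro p hp
    have e1 := hp (v 1 (A1 0))
    have e2 := hp (v 0 (A1 0))
    rw [twoL_apply, hexp p, two_add_left, hsl, hsl] at e1 e2
    rw [two_self, mul_zero, add_zero] at e1
    rw [two_self, mul_zero, zero_add, two_neg] at e2
    have e3 := (mul_eq_zero.1 e1).resolve_right hω'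
    have e4 := (mul_eq_zero.1 e2).resolve_right (neg_ne_zero.2 hω')
    rw [hexp p, e3, e4, zero_smul, zero_smul, add_zero]
  have hq0 : ∀ A A' : TT' k (3 + 1), qf (twoL v ω A1 0) (Phi (vk k v (3 + 1)) A)
      (Phi (vk k v (3 + 1)) A') = pol v ω (ext k A) (Function.update A1 0 (ext k A')) 0 := by
    intro A A'
    rw [qf_apply, twoL_apply, twoL_apply, pol_two]
    rfl
  have hyk : LinearIndependent k y := by
    rw [Fintype.linearIndependent_iff]
    intro g hg i
    have h3 := hC.yk (fun i => (g i : Ω)) (fun i => (g i).2) (by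
      rw [← hg]
      refine Finset.sum_congr rfl fun i _ => ?_
      rw [Algebra.smul_def]; rfl)
    have h4 := congrFun h3 i
    exact Subtype.ext h4
  refine syz_core (k := k) (Ω := Ω) (T := TT' k (3 + 1)) (R := TT' k 3) (Q := Q)
    (twoL v ω A1 0) hQ hnd1 ?_ (mulXT k 3) (vk k v (3 + 1))
    ![![-y 1, 1, 0], ![-y 2, 0, 1]] y hyk ?_ ?_ ?_ ?_ ?_ ?_ (finrank_cubics k)
  · intro p hp
    apply hnd1
    intro q
    have h5 := hp q
    rw [twoL_apply] at h5 ⊢
    rw [two_neg, h5, neg_zero]
  · intro h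
    have h5 := congrFun h 1
    simp at h5
  · intro i
    fin_cases i
    · simp [Fin.sum_univ_three, hC.y0]
    · simp [Fin.sum_univ_three, hC.y0]
  · intro B
    have h5 := hC.comm (ext k B)
    have h6 : ∀ (i : Fin 2) (a : Fin 3), vk k v (3 + 1) i (mulXT k 3 a B) =
        v i (X a * ext k (B : MvPolynomial (Fin 3) k)) := by
      intro i a
      rw [vk_apply, mulXT_coe, ext_X_mul]
    simp only [h6, Fin.sum_univ_three]
    simp only [Matrix.cons_val_zero, Matrix.cons_val_one, Matrix.cons_val_two, Matrix.head_cons,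
      Matrix.tail_cons, zero_smul, add_zero, one_smul]
    have h7 : ∀ (i : Fin 2) (c : Ω) (j : Fin 3), v i ((X j - C c * X 0) *
        ext k (B : MvPolynomial (Fin 3) k)) = v i (X j * ext k (B : MvPolynomial (Fin 3) k)) -
          c • v i (X 0 * ext k (B : MvPolynomial (Fin 3) k)) := by
      intro i c j
      rw [sub_mul, map_sub, mul_assoc, C_mul', map_smul]
    rw [h7, h7] at h5
    rw [neg_smul, neg_smul, neg_add_eq_sub, neg_add_eq_sub]
    exact h5.symm
  · intro p q
    rw [twoL_apply, twoL_apply, two_neg]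
  · intro A A'
    have h5 := pol_mem k hC h1 0 (ext_hom k ((mem_homogeneousSubmodule _ _).1 A'.2))
      (ext_mem k _) (ext_hom k ((mem_homogeneousSubmodule _ _).1 A.2)) (ext_mem k _)
    exact ⟨⟨_, h5⟩, (hq0 A A').symm⟩
  · intro A hA
    have h5 := hrad (ext k A) (ext_hom k ((mem_homogeneousSubmodule _ _).1 A.2)) (by
      intro A' hA' s
      rw [Subsingleton.elim s 0]
      refine pol_zero_of k (fun A'' => ?_) hA'.1
      have h6 := hA A''
      rw [hq0, pol_symm] at h6
      exact h6)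
    funext i
    fin_cases i
    · exact h5.1
    · exact h5.2

end final

theorem exb : ExbStatement := by
  intro Ω Q _ _ _ _ k e y v ω he hC A1 h1 hω hrad
  rcases Nat.lt_or_ge e 2 with h | h
  · obtain rfl : e = 1 := by omega
    obtain ⟨B, hB, hB2⟩ := exb_one k hC h1 hω hrad
    refine ⟨ext k B, ext_ne k (fun h => hB (Subtype.ext h)),
      ext_hom k ((mem_homogeneousSubmodule _ _).1 B.2), ext_mem k _, fun i j => ?_⟩
    have h2 := congrFun (hB2 j) i
    rw [Phi_apply, vk_apply, mulXT_coe, ext_X_mul] at h2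
    exact h2
  · have hrk := ratKer_vk k hC h1 hrad
    have : FiniteDimensional Ω Q := Module.finite_of_finrank_pos (by rw [hC.dim]; omega)
    obtain ⟨B, hB, hB2⟩ := RatKer.count (k := k) (Ω := Ω) (T := TT' k (3 * e + 1))
      (U := Fin 2 → Q) (R := TT' k (3 * e)) hrk (mulXT k (3 * e)) (by
        rw [Module.finrank_pi_fintype, Finset.sum_const, Finset.card_univ, Fintype.card_fin,
          smul_eq_mul, hC.dim, finrank_hom_three]
        have := count_e e h
        omega)
    refine ⟨ext k B, ext_ne k (fun h => hB (Subtype.ext h)),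
      ext_hom k ((mem_homogeneousSubmodule _ _).1 B.2), ext_mem k _, fun i j => ?_⟩
    have h2 := congrFun (hB2 j) i
    rw [LinearMap.pi_apply, vk_apply, mulXT_coe, ext_X_mul] at h2
    exact h2

end Pool.Agent.Edge.H76
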